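import Mathlib

open Set Filter Topology

namespace Pool.Agent.Results.MP_0df558_gt.NoSepFamily

/-- `C_p(X)`: continuous real functions on `X` with the subspace topology from the product. -/
abbrev Cp (X : Type) [TopologicalSpace X] : Type := {f : X → ℝ // Continuous f}

/-- Cozero sets. -/
def IsCozero {Z : Type} [TopologicalSpace Z] (U : Set Z) : Prop :=
  ∃ g : Z → ℝ, Continuous g ∧ U = {z | g z ≠ 0}

/-- `T_0`-separating families. -/
def T0Separating {Z : Type} (𝒰 : Set (Set Z)) : Prop :=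
  ∀ z w : Z, z ≠ w → ∃ U ∈ 𝒰, (z ∈ U ∧ w ∉ U) ∨ (z ∉ U ∧ w ∈ U)

/-- Weakly sigma-point-finite families. -/
def WeaklySigmaPointFinite {Z : Type} (𝒰 : Set (Set Z)) : Prop :=
  ∃ V : ℕ → Set (Set Z), (∀ n, V n ⊆ 𝒰) ∧
    ∀ z : Z, 𝒰 = ⋃ n ∈ {n : ℕ | {U | U ∈ V n ∧ z ∈ U}.Finite}, V n

/-- Lindelof Sigma-spaces. -/
def IsLindelofSigma (X : Type) [TopologicalSpace X] : Prop :=
  ∃ C : Set (Set X), (∀ K ∈ C, IsCompact K) ∧ ⋃₀ C = univ ∧
    ∃ F : Set (Set X), F.Countable ∧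
      ∀ K ∈ C, ∀ U : Set X, IsOpen U → K ⊆ U → ∃ A ∈ F, K ⊆ A ∧ A ⊆ U

theorem cp_basic {X : Type} [TopologicalSpace X] {U : Set (Cp X)} (hU : IsOpen U) {f : Cp X}
    (hf : f ∈ U) : ∃ (T : Finset X) (u : X → Set ℝ), (∀ x ∈ T, IsOpen (u x) ∧ f.1 x ∈ u x) ∧
      ∀ g : Cp X, (∀ x ∈ T, g.1 x ∈ u x) → g ∈ U := by
  obtain ⟨W, hW, rfl⟩ := isOpen_induced_iff.1 hU
  obtain ⟨T, u, h1, h2⟩ := isOpen_pi_iff.1 hW f.1 hf
  exact ⟨T, u, h1, fun g hg => h2 fun x hx => hg x hx⟩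

theorem cp_type {X : Type} [TopologicalSpace X] {U : Set (Cp X)} (hU : IsOpen U)
    (hne : U.Nonempty) : ∃ (t : Σ n : ℕ, Fin n → ℚ) (s : Fin t.1 → X), Function.Injective s ∧
      ∀ g : Cp X, (∀ j, g.1 (s j) = t.2 j) → g ∈ U := by
  obtain ⟨f, hf⟩ := hne
  obtain ⟨T, u, h1, h2⟩ := cp_basic hU hf
  have : ∀ x : T, ∃ q : ℚ, (q : ℝ) ∈ u x := fun x =>
    Rat.denseRange_cast.exists_mem_open (h1 x x.2).1 ⟨_, (h1 x x.2).2⟩
  choose q hq using this
  refine ⟨⟨T.card, fun j => q (T.equivFin.symm j)⟩, fun j => (T.equivFin.symm j : X),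
    Subtype.val_injective.comp T.equivFin.symm.injective, fun g hg => h2 g fun x hx => ?_⟩
  have := hg (T.equivFin ⟨x, hx⟩)
  simp only [Equiv.symm_apply_apply] at this
  rw [this]
  exact hq ⟨x, hx⟩

theorem sep_two {D : Type} {u v : Ultrafilter D} (h : u ≠ v) : ∃ A, A ∈ u ∧ Aᶜ ∈ v := by
  by_contra hc
  push Not at hc
  exact h (Ultrafilter.coe_le_coe.1 (fun A hA => by
    by_contra h2
    exact hc Aᶜ (Ultrafilter.compl_mem_iff_notMem.2 h2) (by rwa [compl_compl])))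

theorem sep_fin {D : Type} {n : ℕ} {s : Fin n → Ultrafilter D} (hs : Function.Injective s) :
    ∃ C : Fin n → Set D, (∀ j, C j ∈ s j) ∧ ∀ j j', j ≠ j' → Disjoint (C j) (C j') := by
  have : ∀ j j' : Fin n, ∃ A : Set D, j ≠ j' → A ∈ s j ∧ Aᶜ ∈ s j' := by
    intro j j'
    by_cases h : j = j'
    · exact ⟨∅, fun h' => absurd h h'⟩
    · obtain ⟨A, hA⟩ := sep_two (fun h' => h (hs h'))
      exact ⟨A, fun _ => hA⟩
  choose A hA using this
  refine ⟨fun j => {d | ∀ j', j ≠ j' → d ∈ A j j' ∧ d ∉ A j' j}, fun j => ?_, fun j j' h => ?_⟩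
  · have : ∀ᶠ d in (s j : Filter D), ∀ j', j ≠ j' → d ∈ A j j' ∧ d ∉ A j' j := by
      refine eventually_all.2 fun j' => ?_
      by_cases h : j = j'
      · exact Eventually.of_forall fun d h' => absurd h h'
      · filter_upwards [(hA j j' h).1, (hA j' j (Ne.symm h)).2] with d h1 h2 _ using ⟨h1, h2⟩
    exact this
  · exact disjoint_left.2 fun d h1 h2 => (h2 j (Ne.symm h)).2 (h1 j' h).1

theorem step_fun {D : Type} {n : ℕ} (A : Fin n → Set D)
    (hA : ∀ j j', j ≠ j' → Disjoint (A j) (A j')) (q : Fin n → ℝ) :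
    ∃ g : Cp (Ultrafilter D), ∀ j u, A j ∈ u → g.1 u = q j := by
  classical
  refine ⟨⟨fun u => ∑ j, {u : Ultrafilter D | A j ∈ u}.indicator (fun _ => q j) u, ?_⟩,
    fun j u hu => ?_⟩
  · refine continuous_finsetSum _ fun j _ => ?_
    exact IsClopen.continuous_indicator
      ⟨ultrafilter_isClosed_basic _, ultrafilter_isOpen_basic _⟩ continuous_const
  · show ∑ j, {u : Ultrafilter D | A j ∈ u}.indicator (fun _ => q j) u = q j
    rw [Finset.sum_eq_single j]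
    · exact indicator_of_mem (show u ∈ {u : Ultrafilter D | A j ∈ u} from hu) _
    · intro j' _ hj
      refine indicator_of_notMem (fun h => ?_) _
      have h3 : A j' ∩ A j ∈ u := inter_mem h hu
      rw [(hA j' j hj).inter_eq] at h3
      exact u.empty_notMem h3
    · simp

theorem common {D I : Type} {n : ℕ} (s : I → Fin n → Ultrafilter D)
    (hs : ∀ i, Function.Injective (s i)) (q : Fin n → ℝ) (𝒱 : Ultrafilter I)
    (h𝒱 : ∀ i, {i}ᶜ ∈ 𝒱) (E : ℕ → Set I) (hE : ∀ k, E k ∈ 𝒱) :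
    ∃ (a : ℕ → I) (g : Cp (Ultrafilter D)), Function.Injective a ∧
      (∀ m k, m ≤ k → a k ∈ E m) ∧ ∀ k j, g.1 (s (a k) j) = q j := by
  classical
  let p : Fin n → Ultrafilter D := fun j => 𝒱.bind fun i => s i j
  have hp : ∀ j A, A ∈ p j ↔ {i | A ∈ s i j} ∈ 𝒱 := fun j A => Iff.rfl
  let J : Set (Fin n) := {j | {i | s i j = p j} ∈ 𝒱}
  have hG : ∀ᶠ i in (𝒱 : Filter I), (∀ j, j ∈ J → s i j = p j) ∧
      ∀ j, j ∉ J → ∀ j', s i j ≠ p j' := by
    refine (eventually_all.2 fun j => ?_).and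
      (eventually_all.2 fun j => ?_)
    · by_cases h : j ∈ J
      · filter_upwards [h] with i hi _ using hi
      · exact Eventually.of_forall fun i h' => absurd h' h
    · by_cases h : j ∈ J
      · exact Eventually.of_forall fun i h' => absurd h h'
      · have : ∀ᶠ i in (𝒱 : Filter I), ∀ j', s i j ≠ p j' := by
          refine eventually_all.2 fun j' => ?_
          by_contra hc
          have h1 : {i | s i j = p j'} ∈ 𝒱 := by
            have := Ultrafilter.compl_mem_iff_notMem.2 hc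
            refine mem_of_superset this fun i hi => ?_
            simpa using hi
          have h2 : p j = p j' := by
            refine Ultrafilter.coe_le_coe.1 fun A hA => (hp j A).2 ?_
            refine mem_of_superset h1 fun i hi => ?_
            show A ∈ s i j
            rw [show s i j = p j' from hi]
            exact hA
          exact h (by show {i | s i j = p j} ∈ 𝒱; rwa [h2])
        filter_upwards [this] with i hi _ using hi
  have hV : ∀ i, ∃ V : Set D, (∀ j, j ∉ J → ∀ j', s i j ≠ p j') →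
      (∀ j, j ∉ J → V ∈ s i j) ∧ ∀ j', Vᶜ ∈ p j' := by
    intro i
    by_cases h : ∀ j, j ∉ J → ∀ j', s i j ≠ p j'
    · have : ∀ j j', ∃ A : Set D, j ∉ J → A ∈ s i j ∧ Aᶜ ∈ p j' := by
        intro j j'
        by_cases hj : j ∈ J
        · exact ⟨∅, fun h' => absurd hj h'⟩
        · obtain ⟨A, hA⟩ := sep_two (h j hj j')
          exact ⟨A, fun _ => hA⟩
      choose A hA using this
      refine ⟨{d | ∃ j, j ∉ J ∧ ∀ j', d ∈ A j j'}, fun _ => ⟨fun j hj => ?_, fun j' => ?_⟩⟩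
      · have : ∀ᶠ d in (s i j : Filter D), ∀ j', d ∈ A j j' :=
          eventually_all.2 fun j' => (hA j j' hj).1
        filter_upwards [this] with d hd using ⟨j, hj, hd⟩
      · have : ∀ᶠ d in (p j' : Filter D), ∀ j, j ∉ J → d ∉ A j j' := by
          refine eventually_all.2 fun j => ?_
          by_cases hj : j ∈ J
          · exact Eventually.of_forall fun i h' => absurd hj h'
          · filter_upwards [(hA j j' hj).2] with d hd _ using hd
        filter_upwards [this] with d hd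
        rintro ⟨j, hj, hd'⟩
        exact hd j hj (hd' j')
    · exact ⟨∅, fun h' => absurd h' h⟩
  choose V hV using hV
  obtain ⟨b, hb1, hb2⟩ := exists_seq_of_forall_finset_exists
    (fun x : I × ℕ => ((∀ j, j ∈ J → s x.1 j = p j) ∧ ∀ j, j ∉ J → ∀ j', s x.1 j ≠ p j') ∧
      ∀ m ≤ x.2, x.1 ∈ E m)
    (fun x y => y.1 ≠ x.1 ∧ (∀ j, (V x.1)ᶜ ∈ s y.1 j) ∧ x.2 < y.2) (by
      intro T hT
      have h1 : ∀ᶠ i in (𝒱 : Filter I), ∀ x ∈ T, i ≠ x.1 ∧ ∀ j, (V x.1)ᶜ ∈ s i j := by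
        refine (eventually_all_finset T).2 fun x hx => Eventually.and ?_ ?_
        · exact h𝒱 x.1
        · exact eventually_all.2 fun j => (hp j _).1 ((hV x.1 (hT x hx).1.2).2 j)
      have h2 : ∀ᶠ i in (𝒱 : Filter I), ∀ m ∈ Finset.range (T.sup Prod.snd + 2), i ∈ E m :=
        (eventually_all_finset _).2 fun m _ => hE m
      obtain ⟨i, hi1, hi2, hi3⟩ := (hG.and (h1.and h2)).exists
      refine ⟨(i, T.sup Prod.snd + 1), ⟨hi1, fun m hm => hi3 m (Finset.mem_range.2 ?_)⟩,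
        fun x hx => ⟨(hi2 x hx).1, (hi2 x hx).2, Nat.lt_succ_of_le (Finset.le_sup (f := Prod.snd) hx)⟩⟩
      exact Nat.lt_succ_of_le hm)
  have hmono : StrictMono fun k => (b k).2 := fun k l h => (hb2 k l h).2.2
  have hinj : Function.Injective fun k => (b k).1 := by
    intro k l h
    rcases lt_trichotomy k l with h' | h' | h'
    · exact absurd h.symm (hb2 k l h').1
    · exact h'
    · exact absurd h (hb2 l k h').1
  let B : ℕ → Set D := fun k => {d | d ∈ V (b k).1 ∧ ∀ m ∈ Finset.range k, d ∉ V (b m).1}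
  have hB : ∀ k j, j ∉ J → B k ∈ s (b k).1 j := by
    intro k j hj
    have : ∀ᶠ d in (s (b k).1 j : Filter D), ∀ m ∈ Finset.range k, d ∉ V (b m).1 :=
      (eventually_all_finset _).2 fun m hm => (hb2 m k (Finset.mem_range.1 hm)).2.1 j
    filter_upwards [this, (hV _ (hb1 k).1.2).1 j hj] with d h1 h2 using ⟨h2, h1⟩
  have hBd : ∀ k l d, d ∈ B k → d ∈ B l → k = l := by
    intro k l d h1 h2
    rcases lt_trichotomy k l with h' | h' | h'
    · exact absurd h1.1 (h2.2 k (Finset.mem_range.2 h'))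
    · exact h'
    · exact absurd h2.1 (h1.2 l (Finset.mem_range.2 h'))
  let W : ℕ → Set D := fun l => {d | ∃ m, d ∈ B (Nat.pair l m)}
  obtain ⟨l, hl⟩ : ∃ l, ∀ j, W l ∉ p j := by
    by_contra hc
    push Not at hc
    choose c hc using hc
    obtain ⟨l, l', h1, h2⟩ := Finite.exists_ne_map_eq_of_infinite c
    have h3 : W l ∩ W l' ∈ p (c l) := inter_mem (hc l) (h2 ▸ hc l')
    obtain ⟨d, ⟨m, hm⟩, m', hm'⟩ := Ultrafilter.nonempty_of_mem h3
    exact h1 (Nat.pair_eq_pair.1 (hBd _ _ d hm hm')).1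
  choose C hC1 hC2 using fun k => sep_fin (hs (b k).1)
  obtain ⟨g, hg⟩ := step_fun
    (fun j => {d | (∃ m, d ∈ B (Nat.pair l m) ∧ d ∈ C (Nat.pair l m) j) ∨ (d ∉ W l ∧ d ∈ C 0 j)})
    (by
      intro j j' h
      refine disjoint_left.2 ?_
      rintro d (⟨m, h1, h2⟩ | ⟨h1, h2⟩) (⟨m', h3, h4⟩ | ⟨h3, h4⟩)
      · rw [← hBd _ _ d h1 h3] at h4
        exact disjoint_left.1 (hC2 _ j j' h) h2 h4
      · exact h3 ⟨m, h1⟩
      · exact h1 ⟨m', h3⟩
      · exact disjoint_left.1 (hC2 _ j j' h) h2 h4) q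
  refine ⟨fun k => (b (Nat.pair l k)).1, g, fun k k' h => (Nat.pair_eq_pair.1 (hinj h)).2,
    fun m k h => (hb1 _).2 m (h.trans ((Nat.right_le_pair l k).trans (hmono.id_le _))),
    fun k j => hg j _ ?_⟩
  by_cases hj : j ∈ J
  · rw [(hb1 _).1.1 j hj]
    have h1 := hC1 0 j
    rw [(hb1 _).1.1 j hj] at h1
    filter_upwards [h1, Ultrafilter.compl_mem_iff_notMem.2 (hl j)] with d h2 h3
      using Or.inr ⟨h3, h2⟩
  · filter_upwards [hB _ j hj, hC1 (Nat.pair l k) j] with d h2 h3 using Or.inl ⟨k, h2, h3⟩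

theorem cond {I : Type} {S : Set I} (hS : ¬ S.Countable) (N : I → Set ℕ) :
    ∃ i ∈ S, ∀ k, {i' | i' ∈ S ∧ ∀ m ≤ k, m ∈ N i → m ∈ N i'}.Infinite := by
  classical
  by_contra hc
  push Not at hc
  apply hS
  have : S ⊆ ⋃ F : Finset ℕ, {i | i ∈ S ∧ (∀ m ∈ F, m ∈ N i) ∧
      {i' | i' ∈ S ∧ ∀ m ∈ F, m ∈ N i'}.Finite} := by
    intro i hi
    obtain ⟨k, hk⟩ := hc i hi
    refine mem_iUnion.2 ⟨(Finset.range (k + 1)).filter (· ∈ N i), hi,
      fun m hm => (Finset.mem_filter.1 hm).2, Set.Finite.subset hk fun i' hi' => ?_⟩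
    refine ⟨hi'.1, fun m h1 h2 => ?_⟩
    exact hi'.2 m (Finset.mem_filter.2 ⟨Finset.mem_range.2 (Nat.lt_succ_of_le h1), h2⟩)
  refine Countable.mono this (countable_iUnion fun F => ?_)
  by_cases h : {i' | i' ∈ S ∧ ∀ m ∈ F, m ∈ N i'}.Finite
  · refine h.countable.mono fun i hi => ?_
    exact ⟨hi.1, hi.2.1⟩
  · exact countable_empty.mono fun i hi => h hi.2.2

theorem countable_of {D : Type} {𝒰 : Set (Set (Cp (Ultrafilter D)))} (ho : ∀ U ∈ 𝒰, IsOpen U)
    (hw : WeaklySigmaPointFinite 𝒰) : 𝒰.Countable := by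
  classical
  obtain ⟨V, hV1, hV2⟩ := hw
  by_contra hc
  have h1 : 𝒰 ⊆ {∅} ∪ ⋃ t : Σ n : ℕ, Fin n → ℚ, {U | U ∈ 𝒰 ∧ ∃ s : Fin t.1 → Ultrafilter D,
      Function.Injective s ∧ ∀ g : Cp (Ultrafilter D), (∀ j, g.1 (s j) = t.2 j) → g ∈ U} := by
    intro U hU
    rcases U.eq_empty_or_nonempty with h | h
    · exact Or.inl h
    · obtain ⟨t, s, h⟩ := cp_type (ho U hU) h
      exact Or.inr (mem_iUnion.2 ⟨t, hU, s, h⟩)
  obtain ⟨t, ht⟩ : ∃ t : Σ n : ℕ, Fin n → ℚ, ¬ {U | U ∈ 𝒰 ∧ ∃ s : Fin t.1 → Ultrafilter D,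
      Function.Injective s ∧ ∀ g : Cp (Ultrafilter D),
        (∀ j, g.1 (s j) = t.2 j) → g ∈ U}.Countable := by
    by_contra h
    push Not at h
    exact hc (((countable_singleton _).union (countable_iUnion h)).mono h1)
  set S := {U | U ∈ 𝒰 ∧ ∃ s : Fin t.1 → Ultrafilter D,
      Function.Injective s ∧ ∀ g : Cp (Ultrafilter D),
        (∀ j, g.1 (s j) = t.2 j) → g ∈ U} with hS
  obtain ⟨U₀, hU₀, hE⟩ := cond ht fun U => {m | U ∈ V m}
  let E : ℕ → Set S := fun k => {U | ∀ m ≤ k, U₀ ∈ V m → U.1 ∈ V m}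
  have hE' : ∀ k, (E k).Infinite := fun k =>
    Infinite.of_image Subtype.val ((hE k).mono fun U hU => ⟨⟨U, hU.1⟩, hU.2, rfl⟩)
  have hne : (⨅ k, cofinite ⊓ 𝓟 (E k)).NeBot := by
    refine iInf_neBot_of_directed' ?_ fun k => (hE' k).cofinite_inf_principal_neBot
    refine directed_of_isDirected_le fun k l h => inf_le_inf_left _ (principal_mono.2 ?_)
    exact fun U hU m hm => hU m (hm.trans h)
  let 𝒱 : Ultrafilter S := Ultrafilter.of (⨅ k, cofinite ⊓ 𝓟 (E k))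
  have hle : ∀ k, (𝒱 : Filter S) ≤ cofinite ⊓ 𝓟 (E k) := fun k =>
    (Ultrafilter.of_le _).trans (iInf_le _ k)
  choose s hs1 hs2 using fun U : S => U.2.2
  obtain ⟨a, g, ha1, ha2, hg⟩ := common s hs1 (fun j => (t.2 j : ℝ)) 𝒱
    (fun i => (hle 0).trans inf_le_left (finite_singleton i).compl_mem_cofinite) E
    (fun k => (hle k).trans inf_le_right (mem_principal_self _))
  have h2 := hU₀.1
  rw [hV2 g] at h2
  obtain ⟨m, hm1, hm2⟩ := mem_iUnion₂.1 h2
  refine infinite_of_injective_forall_mem (f := fun k => (a (k + m)).1) ?_ ?_ hm1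
  · intro k k' h
    exact Nat.add_right_cancel (ha1 (Subtype.ext h))
  · exact fun k => ⟨ha2 m (k + m) (Nat.le_add_left _ _) m le_rfl hm2, hs2 _ g (hg _)⟩

theorem cozero_dep {X : Type} [TopologicalSpace X] {U : Set (Cp X)} (hU : IsCozero U) (f : Cp X) :
    ∃ A : Set X, A.Countable ∧ ∀ g : Cp X, (∀ x ∈ A, g.1 x = f.1 x) → (g ∈ U ↔ f ∈ U) := by
  obtain ⟨φ, hφ, rfl⟩ := hU
  have : ∀ m : ℕ, ∃ T : Finset X, ∀ g : Cp X, (∀ x ∈ T, g.1 x = f.1 x) →
      dist (φ g) (φ f) < 1 / ((m : ℝ) + 1) := by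
    intro m
    obtain ⟨T, u, h1, h2⟩ := cp_basic (U := φ ⁻¹' Metric.ball (φ f) (1 / ((m : ℝ) + 1)))
      (Metric.isOpen_ball.preimage hφ) (f := f) (Metric.mem_ball_self Nat.one_div_pos_of_nat)
    exact ⟨T, fun g hg => h2 g fun x hx => hg x hx ▸ (h1 x hx).2⟩
  choose T hT using this
  refine ⟨⋃ m, T m, countable_iUnion fun m => (T m).countable_toSet, fun g hg => ?_⟩
  have : φ g = φ f := by
    by_contra h
    obtain ⟨m, hm⟩ := exists_nat_one_div_lt (dist_pos.2 h)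
    exact lt_asymm hm (hT m g fun x hx => hg x (mem_iUnion.2 ⟨m, hx⟩))
  simp [this]

theorem result : ∃ (X : Type) (_ : TopologicalSpace X), CompactSpace X ∧ T2Space X ∧
    IsLindelofSigma X ∧ ¬ ∃ 𝒰 : Set (Set (Cp X)), (∀ U ∈ 𝒰, IsCozero U) ∧ T0Separating 𝒰 ∧
      WeaklySigmaPointFinite 𝒰 := by
  classical
  refine ⟨Ultrafilter ℝ, inferInstance, inferInstance, inferInstance,
    ⟨{univ}, fun K hK => hK ▸ isCompact_univ, sUnion_singleton _, {univ}, countable_singleton _,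
      fun K hK U _ h => ⟨univ, rfl, subset_univ _, hK ▸ h⟩⟩, ?_⟩
  rintro ⟨𝒰, h1, h2, h3⟩
  have hc := countable_of (fun U hU => by
    obtain ⟨φ, hφ, rfl⟩ := h1 U hU
    exact isOpen_ne_fun hφ continuous_const) h3
  let z : Cp (Ultrafilter ℝ) := ⟨fun _ => 0, continuous_const⟩
  choose! A hA1 hA2 using fun U hU => cozero_dep (h1 U hU) z
  have hA : (⋃ U ∈ 𝒰, A U).Countable := hc.biUnion hA1
  obtain ⟨d, hd⟩ : ∃ d : ℝ, (pure d : Ultrafilter ℝ) ∉ ⋃ U ∈ 𝒰, A U := by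
    by_contra h
    push Not at h
    have := hA.preimage_of_injOn (f := (pure : ℝ → Ultrafilter ℝ))
      Ultrafilter.pure_injective.injOn
    exact not_countable_univ (this.mono fun d _ => h d)
  obtain ⟨g, hg⟩ := step_fun (D := ℝ) ![{d}, {d}ᶜ] (by
    intro j j' h
    fin_cases j <;> fin_cases j' <;> simp_all [disjoint_compl_left]) ![1, 0]
  have hne : g ≠ z := by
    intro h
    have := hg 0 (pure d) (by simp)
    rw [h] at this
    simp [z] at this
  obtain ⟨U, hU, h⟩ := h2 g z hne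
  have key := hA2 U hU g fun u hu => by
    refine hg 1 u ?_
    show {d}ᶜ ∈ u
    refine Ultrafilter.compl_mem_iff_notMem.2 fun h => hd ?_
    have : u = pure d := Ultrafilter.coe_le_coe.1 (le_pure_iff.2 h)
    exact mem_iUnion₂.2 ⟨U, hU, this ▸ hu⟩
  tauto

end Pool.Agent.Results.MP_0df558_gt.NoSepFamily
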